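import Pool.Agent.Lib_helper13.Robin.W.MS
import Pool.Agent.Lib_helper13.Robin.W.NL
import Pool.Agent.Lib_helper13.Robin.W.PL
import Pool.Agent.Lib_helper13.Robin.Basic

/-!
# Robin project, block WT: the weighted estimate
-/

namespace Pool.Agent.Lib_helper34.Robin

open MeasureTheory Set Metric Filter Topology
open scoped RealInnerProductSpace ContDiff ENNReal
open Pool.Agent.Lib_helper13.Robin

noncomputable section

variable {d m : ℕ} (P : PD d m) {ι : Type} [Fintype ι] {T : ι → E d → ℝ}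

theorem wt_Th_nonneg (z : E d) : 0 ≤ Th z := by unfold Th; positivity

theorem wt_Th_cont : Continuous (Th : E d → ℝ) := by unfold Th; fun_prop

theorem wt_th_cont : Continuous (th : E d → ℝ) := by unfold th; fun_prop

theorem wt_th_nonneg (z : E d) : 0 ≤ th z := by unfold th; positivity

theorem wt_th_le (z : E d) : th z ≤ 1 := by
  unfold th; exact max_le (by nlinarith [norm_nonneg z]) zero_le_one

theorem wt_Th_le (z : E d) : Th z ≤ 1 := by
  unfold Th
  have h0 : 0 ≤ max (1 - ‖z‖ ^ 2) 0 := le_max_right _ _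
  have h1 : max (1 - ‖z‖ ^ 2) 0 ≤ 1 := max_le (by nlinarith [norm_nonneg z]) zero_le_one
  nlinarith

theorem wt_th_zero {z : E d} (hz : 1 ≤ ‖z‖) : th z = 0 := by
  unfold th; exact max_eq_right (by nlinarith)

theorem wt_Th_zero {z : E d} (hz : 1 ≤ ‖z‖) : Th z = 0 := by
  unfold Th; rw [max_eq_right (by nlinarith)]; norm_num

theorem wt_Th_low {z : E d} (hz : ‖z‖ ≤ 1 / 2) : 9 / 64 ≤ Th z := by
  unfold Th
  have h1 : 3 / 4 ≤ max (1 - ‖z‖ ^ 2) 0 := le_max_of_le_left (by nlinarith [norm_nonneg z])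
  nlinarith

theorem wt_rho_cont (q : E d) : Continuous (P.rho q) := by
  unfold PD.rho; fun_prop

variable {P}

/-- points at distance `≥ t` from the centre are outside the support -/
theorem wt_norm_ge {t : ℝ} (ht : 0 < t) {x p : E d} (h : t ≤ ‖x - p‖) :
    1 ≤ ‖t⁻¹ • (x - p)‖ := by
  rw [norm_smul, Real.norm_eq_abs, abs_of_pos (inv_pos.2 ht), ← div_eq_inv_mul, le_div_iff₀ ht]
  linarith

/-- the uniform bound of the mean values -/
theorem wt_unif {q : E d} {R : ℝ} (hC : P.Con q R) (h : PP P T (ball q R)) :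
    ∃ C1 : ℝ, 0 ≤ C1 ∧ ∀ s ∈ (P.N q)ᗮ, ‖s‖ ≤ R / 4 → ∀ t1, 0 < t1 → t1 ≤ R / 2 →
      IntervalIntegrable (fun τ => τ ^ (1 - (d : ℤ)) *
        ∫ x in P.Om, (2 * gsq T x) * Th (τ⁻¹ • (x - (q + s)))) volume t1 (R / 2) ∧
      ∫ τ in t1..(R / 2), τ ^ (1 - (d : ℤ)) *
        ∫ x in P.Om, (2 * gsq T x) * Th (τ⁻¹ • (x - (q + s))) ≤ C1 := by
  have hR := hC.pos
  set K := closedBall q (3 * R / 4) with hK
  have hKc : IsCompact K := isCompact_closedBall _ _
  have hKR : K ⊆ ball q R := closedBall_subset_ball (by linarith)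
  have hint := h.int1 K hKR hKc
  refine ⟨((R / 2) ^ d)⁻¹ * ∫ x in P.Om ∩ K, sq T x, ?_, ?_⟩
  · have : 0 ≤ ∫ x in P.Om ∩ K, sq T x := integral_nonneg fun x => sq_nonneg' T x
    positivity
  intro s hs hsR t1 ht1 ht12
  have hCs : P.Con (q + s) (3 * R / 4) := by
    apply (hC.shift hs (by linarith)).mono (by linarith) (by linarith)
  have hsub : ball (q + s) (3 * R / 4) ⊆ ball q R := by
    intro y hy
    rw [mem_ball, dist_eq_norm] at hy ⊢
    calc ‖y - q‖ = ‖(y - (q + s)) + s‖ := by congr 1; abel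
      _ ≤ ‖y - (q + s)‖ + ‖s‖ := norm_add_le _ _
      _ < R := by linarith
  obtain ⟨hi1, hi2⟩ := mm_sq P hCs (PP.mono h hsub) ht1 ht12 (by linarith)
  refine ⟨hi1, ?_⟩
  rw [← hi2]
  have hm1 : 0 ≤ mm P (sq T) (q + s) t1 := by
    unfold mm
    have : 0 ≤ ∫ x in P.Om, sq T x * th (t1⁻¹ • (x - (q + s))) :=
      integral_nonneg fun x => mul_nonneg (sq_nonneg' T x) (wt_th_nonneg _)
    positivity
  have hm2 : mm P (sq T) (q + s) (R / 2) ≤ ((R / 2) ^ d)⁻¹ * ∫ x in P.Om ∩ K, sq T x := by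
    unfold mm
    have h1 : ∫ x in P.Om, sq T x * th ((R / 2)⁻¹ • (x - (q + s))) =
        ∫ x in P.Om ∩ K, sq T x * th ((R / 2)⁻¹ • (x - (q + s))) := by
      apply setIntegral_eq_of_zero_off P hKc.measurableSet
      intro x _ hx
      rw [wt_th_zero, mul_zero]
      apply wt_norm_ge (by linarith)
      rw [hK, mem_closedBall, not_le, dist_eq_norm] at hx
      have : ‖x - q‖ ≤ ‖x - (q + s)‖ + ‖s‖ := by
        calc ‖x - q‖ = ‖(x - (q + s)) + s‖ := by congr 1; abel
          _ ≤ _ := norm_add_le _ _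
      linarith
    rw [h1]
    have hRp : 0 ≤ ((R / 2) ^ d)⁻¹ := by positivity
    apply mul_le_mul_of_nonneg_left _ hRp
    apply integral_mono_of_nonneg
    · exact Eventually.of_forall fun x => mul_nonneg (sq_nonneg' T x) (wt_th_nonneg _)
    · exact hint
    · refine Eventually.of_forall fun x => ?_
      calc sq T x * th ((R / 2)⁻¹ • (x - (q + s))) ≤ sq T x * 1 :=
            mul_le_mul_of_nonneg_left (wt_th_le _) (sq_nonneg' T x)
        _ = sq T x := mul_one _
  linarith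

/-- the same bound for lower Lebesgue integrals, with `t1 = 0` -/
theorem wt_unif' {q : E d} {R : ℝ} (hC : P.Con q R) (h : PP P T (ball q R)) :
    ∃ C1 : ℝ, 0 ≤ C1 ∧ ∀ s ∈ (P.N q)ᗮ, ‖s‖ ≤ R / 4 →
      ∫⁻ τ in Ioc 0 (R / 2), ∫⁻ x in P.Om ∩ ball q (R / 16),
        ENNReal.ofReal (2 * gsq T x) *
          ENNReal.ofReal (τ ^ (1 - (d : ℤ)) * Th (τ⁻¹ • (x - (q + s)))) ≤
      ENNReal.ofReal C1 := by
  have hR := hC.pos
  obtain ⟨C1, hC10, hC1⟩ := wt_unif hC h
  refine ⟨C1, hC10, fun s hs hsR => ?_⟩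
  set K := closedBall q (3 * R / 4) with hK
  have hKc : IsCompact K := isCompact_closedBall _ _
  have hKR : K ⊆ ball q R := closedBall_subset_ball (by linarith)
  have hint := h.int2 K hKR hKc
  set f : ℝ → ℝ := fun τ => τ ^ (1 - (d : ℤ)) *
        ∫ x in P.Om, (2 * gsq T x) * Th (τ⁻¹ • (x - (q + s))) with hf
  -- pointwise comparison
  have hpt : ∀ τ ∈ Ioc 0 (R / 2), ∫⁻ x in P.Om ∩ ball q (R / 16),
        ENNReal.ofReal (2 * gsq T x) *
          ENNReal.ofReal (τ ^ (1 - (d : ℤ)) * Th (τ⁻¹ • (x - (q + s)))) ≤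
        ENNReal.ofReal (f τ) := by
    intro τ hτ
    have hτ0 : 0 < τ := hτ.1
    have hz : 0 ≤ τ ^ (1 - (d : ℤ)) := by positivity
    have h1 : ∫ x in P.Om, (2 * gsq T x) * Th (τ⁻¹ • (x - (q + s))) =
        ∫ x in P.Om ∩ K, (2 * gsq T x) * Th (τ⁻¹ • (x - (q + s))) := by
      apply setIntegral_eq_of_zero_off P hKc.measurableSet
      intro x _ hx
      rw [wt_Th_zero, mul_zero]
      apply wt_norm_ge hτ0
      rw [hK, mem_closedBall, not_le, dist_eq_norm] at hx
      have : ‖x - q‖ ≤ ‖x - (q + s)‖ + ‖s‖ := by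
        calc ‖x - q‖ = ‖(x - (q + s)) + s‖ := by congr 1; abel
          _ ≤ _ := norm_add_le _ _
      linarith [hτ.2]
    have hI : IntegrableOn (fun x => (2 * gsq T x) * Th (τ⁻¹ • (x - (q + s)))) (P.Om ∩ K) := by
      have h2 : IntegrableOn (fun x => 2 * gsq T x) (P.Om ∩ K) := hint.const_mul 2
      refine Integrable.mono' h2 (h2.aestronglyMeasurable.mul ?_)
        (Eventually.of_forall fun x => ?_)
      · apply Continuous.aestronglyMeasurable
        exact wt_Th_cont.comp (by fun_prop)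
      · have h3 : 0 ≤ 2 * gsq T x := mul_nonneg zero_le_two (gsq_nonneg T x)
        rw [Real.norm_eq_abs, abs_of_nonneg (mul_nonneg h3 (wt_Th_nonneg _))]
        calc (2 * gsq T x) * Th (τ⁻¹ • (x - (q + s))) ≤ (2 * gsq T x) * 1 :=
              mul_le_mul_of_nonneg_left (wt_Th_le _) h3
          _ = _ := mul_one _
    rw [hf]
    change _ ≤ ENNReal.ofReal (τ ^ (1 - (d : ℤ)) *
        ∫ x in P.Om, (2 * gsq T x) * Th (τ⁻¹ • (x - (q + s))))
    rw [h1, ← integral_const_mul, ofReal_integral_eq_lintegral_ofReal (hI.const_mul _)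
      (Eventually.of_forall fun x => mul_nonneg hz
        (mul_nonneg (mul_nonneg zero_le_two (gsq_nonneg T x)) (wt_Th_nonneg _)))]
    calc ∫⁻ x in P.Om ∩ ball q (R / 16), ENNReal.ofReal (2 * gsq T x) *
          ENNReal.ofReal (τ ^ (1 - (d : ℤ)) * Th (τ⁻¹ • (x - (q + s))))
        = ∫⁻ x in P.Om ∩ ball q (R / 16), ENNReal.ofReal (τ ^ (1 - (d : ℤ)) *
            ((2 * gsq T x) * Th (τ⁻¹ • (x - (q + s))))) := by
          congr 1; ext x
          rw [← ENNReal.ofReal_mul (mul_nonneg zero_le_two (gsq_nonneg T x))]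
          congr 1; ring
      _ ≤ _ := by
          apply lintegral_mono_set
          apply inter_subset_inter_right
          exact ball_subset_closedBall.trans (closedBall_subset_closedBall (by linarith))
  refine (setLIntegral_mono' measurableSet_Ioc hpt).trans ?_
  -- exhaust `(0, R/2]`
  have hU : Ioc (0 : ℝ) (R / 2) = ⋃ n : ℕ, Ioc ((R / 2) / (n + 1)) (R / 2) := by
    ext τ
    simp only [mem_Ioc, mem_iUnion]
    constructor
    · rintro ⟨h1, h2⟩
      obtain ⟨n, hn⟩ := exists_nat_gt ((R / 2) / τ)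
      refine ⟨n, ?_, h2⟩
      rw [div_lt_iff₀ h1] at hn
      rw [div_lt_iff₀ (by positivity)]
      nlinarith
    · rintro ⟨n, h1, h2⟩
      exact ⟨lt_trans (by positivity) h1, h2⟩
  have hdir : Directed (· ⊆ ·) fun n : ℕ => Ioc ((R / 2) / ((n : ℝ) + 1)) (R / 2) := by
    apply Monotone.directed_le
    intro a b hab
    apply Ioc_subset_Ioc_left
    have : (a : ℝ) ≤ b := by exact_mod_cast hab
    gcongr
  rw [hU, setLIntegral_iUnion_of_directed _ hdir]
  apply iSup_le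
  intro n
  set t1 := (R / 2) / ((n : ℝ) + 1) with ht1
  have ht10 : 0 < t1 := by positivity
  have ht12 : t1 ≤ R / 2 := div_le_self (by linarith) (by linarith [(Nat.cast_nonneg n : (0 : ℝ) ≤ n)])
  obtain ⟨h1, h2⟩ := hC1 s hs hsR t1 ht10 ht12
  rw [intervalIntegral.integral_of_le ht12] at h2
  rw [intervalIntegrable_iff_integrableOn_Ioc_of_le ht12] at h1
  have hnn : ∀ᵐ τ ∂(volume.restrict (Ioc t1 (R / 2))), 0 ≤ f τ := by
    apply (ae_restrict_iff' measurableSet_Ioc).2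
    refine Eventually.of_forall fun τ hτ => ?_
    have hτ0 : 0 < τ := ht10.trans hτ.1
    have hz : 0 ≤ τ ^ (1 - (d : ℤ)) := by positivity
    exact mul_nonneg hz (integral_nonneg fun x =>
      mul_nonneg (mul_nonneg zero_le_two (gsq_nonneg T x)) (wt_Th_nonneg _))
  rw [← ofReal_integral_eq_lintegral_ofReal h1 hnn]
  exact ENNReal.ofReal_le_ofReal h2

/-- lower bound of the kernel -/
theorem wt_kernel {q : E d} {R : ℝ} (hR : 0 < R) (hr : 3 ≤ P.rk q) :
    ∃ c : ℝ≥0∞, c ≠ 0 ∧ c ≠ ⊤ ∧ ∀ x ∈ ball q (R / 16),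
      c * ENNReal.ofReal ((P.rho q x)⁻¹) ≤
        ∫⁻ s in ball (0 : (P.N q)ᗮ) (R / 4), ∫⁻ τ in Ioc 0 (R / 2),
          ENNReal.ofReal (τ ^ (1 - (d : ℤ)) * Th (τ⁻¹ • (x - (q + (s : E d))))) := by
  set L := (P.N q)ᗮ with hL
  obtain ⟨n, hn⟩ : ∃ n, P.rk q = n + 3 := ⟨P.rk q - 3, by omega⟩
  set l := Module.finrank ℝ L with hl
  have hdim : d = l + n + 3 := by
    have h1 : Module.finrank ℝ (P.N q) + Module.finrank ℝ L = Module.finrank ℝ (E d) :=
      (P.N q).finrank_add_finrank_orthogonal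
    rw [finrank_euclideanSpace_fin] at h1
    have h2 : Module.finrank ℝ (P.N q) = n + 3 := hn
    omega
  set c0 : ℝ := (9 / 16) * (8 ^ (l + n + 2))⁻¹ * ((R / 16) ^ n)⁻¹ with hc0
  have hc00 : 0 < c0 := by positivity
  refine ⟨ENNReal.ofReal c0 * volume (ball (0 : L) 1), ?_, ?_, ?_⟩
  · apply mul_ne_zero
    · rw [Ne, ENNReal.ofReal_eq_zero, not_le]; exact hc00
    · exact (measure_ball_pos _ _ one_pos).ne'
  · exact ENNReal.mul_ne_top ENNReal.ofReal_ne_top measure_ball_lt_top.ne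
  intro x hx
  rw [mem_ball, dist_eq_norm] at hx
  set ρ := P.rho q x with hρ
  have hρ0 : 0 ≤ ρ := norm_nonneg _
  rcases hρ0.eq_or_lt with h0 | hρpos
  · rw [← h0]; simp
  have hρle : ρ < R / 16 := by
    refine lt_of_le_of_lt ?_ hx
    rw [hρ]; unfold PD.rho
    exact Submodule.norm_starProjection_apply_le _ _
  set sx : L := L.orthogonalProjectionOnto (x - q) with hsx
  have hsxn : ‖sx‖ < R / 16 := lt_of_le_of_lt (Submodule.norm_orthogonalProjectionOnto_apply_le _ _) hx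
  have hxs : ‖x - q - (sx : E d)‖ = ρ := by
    rw [hρ]; unfold PD.rho
    congr 1
    have h1 : (sx : E d) = L.starProjection (x - q) := by
      rw [hsx, Submodule.starProjection_apply]
    rw [h1]
    have h2 := (P.N q).starProjection_add_starProjection_orthogonal (x - q)
    have h3 : x - q - (P.N q)ᗮ.starProjection (x - q) = (P.N q).starProjection (x - q) := by
      rw [sub_eq_iff_eq_add]; exact h2.symm
    exact h3
  -- the small set
  have hsub1 : ball sx ρ ⊆ ball (0 : L) (R / 4) := by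
    intro s hs
    rw [mem_ball, dist_eq_norm] at hs
    rw [mem_ball_zero_iff]
    calc ‖s‖ = ‖(s - sx) + sx‖ := by congr 1; abel
      _ ≤ ‖s - sx‖ + ‖sx‖ := norm_add_le _ _
      _ < R / 4 := by linarith
  have hsub2 : Ioc (4 * ρ) (8 * ρ) ⊆ Ioc 0 (R / 2) := by
    intro τ hτ
    exact ⟨lt_trans (by linarith) hτ.1, by linarith [hτ.2]⟩
  have hlow : ∀ s ∈ ball sx ρ, ENNReal.ofReal (((8 * ρ) ^ (l + n + 2))⁻¹ * (9 / 64)) *
      ENNReal.ofReal (4 * ρ) ≤ ∫⁻ τ in Ioc 0 (R / 2),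
          ENNReal.ofReal (τ ^ (1 - (d : ℤ)) * Th (τ⁻¹ • (x - (q + (s : E d))))) := by
    intro s hs
    rw [mem_ball, dist_eq_norm] at hs
    have hxs2 : ‖x - (q + (s : E d))‖ < 2 * ρ := by
      have h1 : ‖((sx : E d) - (s : E d))‖ < ρ := by
        rw [norm_sub_rev]
        exact hs
      calc ‖x - (q + (s : E d))‖ = ‖(x - q - (sx : E d)) + ((sx : E d) - (s : E d))‖ := by
            congr 1; abel
        _ ≤ ‖x - q - (sx : E d)‖ + ‖(sx : E d) - (s : E d)‖ := norm_add_le _ _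
        _ < 2 * ρ := by rw [hxs]; linarith
    calc ENNReal.ofReal (((8 * ρ) ^ (l + n + 2))⁻¹ * (9 / 64)) * ENNReal.ofReal (4 * ρ)
        = ∫⁻ τ in Ioc (4 * ρ) (8 * ρ),
            ENNReal.ofReal (((8 * ρ) ^ (l + n + 2))⁻¹ * (9 / 64)) := by
          rw [setLIntegral_const, Real.volume_Ioc]; congr 2; ring
      _ ≤ ∫⁻ τ in Ioc (4 * ρ) (8 * ρ),
          ENNReal.ofReal (τ ^ (1 - (d : ℤ)) * Th (τ⁻¹ • (x - (q + (s : E d))))) := by
          apply setLIntegral_mono' measurableSet_Ioc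
          intro τ hτ
          have hτ0 : 0 < τ := lt_trans (by linarith) hτ.1
          apply ENNReal.ofReal_le_ofReal
          have h1 : τ ^ (1 - (d : ℤ)) = (τ ^ (l + n + 2))⁻¹ := by
            rw [← zpow_natCast, ← zpow_neg]
            congr 1
            rw [hdim]; push_cast; ring
          rw [h1]
          have h2 : ((8 * ρ) ^ (l + n + 2))⁻¹ ≤ (τ ^ (l + n + 2))⁻¹ := by
            apply inv_anti₀ (by positivity)
            exact pow_le_pow_left₀ hτ0.le hτ.2 _
          have h3 : 9 / 64 ≤ Th (τ⁻¹ • (x - (q + (s : E d)))) := by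
            apply wt_Th_low
            rw [norm_smul, Real.norm_eq_abs, abs_of_pos (inv_pos.2 hτ0), ← div_eq_inv_mul,
              div_le_iff₀ hτ0]
            linarith [hτ.1]
          exact mul_le_mul h2 h3 (by norm_num) (by positivity)
      _ ≤ _ := lintegral_mono_set hsub2
  calc ENNReal.ofReal c0 * volume (ball (0 : L) 1) * ENNReal.ofReal (ρ⁻¹)
      ≤ (ENNReal.ofReal (((8 * ρ) ^ (l + n + 2))⁻¹ * (9 / 64)) * ENNReal.ofReal (4 * ρ)) *
          volume (ball sx ρ) := by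
        rw [Measure.addHaar_ball_of_pos _ _ hρpos, ← hl]
        have h1 : ENNReal.ofReal c0 * ENNReal.ofReal (ρ⁻¹) ≤
            ENNReal.ofReal (((8 * ρ) ^ (l + n + 2))⁻¹ * (9 / 64)) * ENNReal.ofReal (4 * ρ) *
              ENNReal.ofReal (ρ ^ l) := by
          rw [← ENNReal.ofReal_mul (by positivity), ← ENNReal.ofReal_mul (by positivity),
            ← ENNReal.ofReal_mul (by positivity)]
          apply ENNReal.ofReal_le_ofReal
          have h2 : ((R / 16) ^ n)⁻¹ ≤ (ρ ^ n)⁻¹ := by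
            apply inv_anti₀ (by positivity)
            exact pow_le_pow_left₀ hρ0 hρle.le _
          calc c0 * ρ⁻¹ = (9 / 16) * (8 ^ (l + n + 2))⁻¹ * ρ⁻¹ * ((R / 16) ^ n)⁻¹ := by
                rw [hc0]; ring
            _ ≤ (9 / 16) * (8 ^ (l + n + 2))⁻¹ * ρ⁻¹ * (ρ ^ n)⁻¹ := by gcongr
            _ = ((8 * ρ) ^ (l + n + 2))⁻¹ * (9 / 64) * (4 * ρ) * ρ ^ l := by
                rw [mul_pow]
                field_simp
                ring
        calc ENNReal.ofReal c0 * volume (ball (0 : L) 1) * ENNReal.ofReal (ρ⁻¹)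
            = ENNReal.ofReal c0 * ENNReal.ofReal (ρ⁻¹) * volume (ball (0 : L) 1) := by ring
          _ ≤ _ := by
            refine (mul_le_mul_left h1 _).trans (le_of_eq ?_)
            ring
    _ = ∫⁻ s in ball sx ρ, (ENNReal.ofReal (((8 * ρ) ^ (l + n + 2))⁻¹ * (9 / 64)) *
          ENNReal.ofReal (4 * ρ)) := by rw [setLIntegral_const]
    _ ≤ ∫⁻ s in ball sx ρ, ∫⁻ τ in Ioc 0 (R / 2),
          ENNReal.ofReal (τ ^ (1 - (d : ℤ)) * Th (τ⁻¹ • (x - (q + (s : E d))))) :=
        setLIntegral_mono' measurableSet_ball hlow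
    _ ≤ _ := lintegral_mono_set hsub1

variable (P)

/-- **WT.** the weighted estimate for the next derivative -/
theorem weight {q : E d} {R : ℝ} (hC : P.Con q R) (hr : 3 ≤ P.rk q)
    (h : PP P T (ball q R)) :
    ∃ r > 0, IntegrableOn (fun x => (P.rho q x)⁻¹ * gsq T x) (P.Om ∩ ball q r) := by
  have hR := hC.pos
  obtain ⟨C1, hC10, hC1⟩ := wt_unif' hC h
  obtain ⟨c, hc0, hc1, hc⟩ := wt_kernel (P := P) (q := q) hR hr
  set A := P.Om ∩ ball q (R / 16) with hA
  have hAm : MeasurableSet A := P.measurableSet_Om.inter measurableSet_ball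
  refine ⟨R / 16, by positivity, ?_⟩
  have hcont : ContinuousOn (gsq T) A :=
    (continuousOn_gsq (P.isOpen_Om.inter isOpen_ball) h.sm1).mono
      (inter_subset_inter_right _ (ball_subset_ball (by linarith)))
  have hgm : AEMeasurable (fun x => ENNReal.ofReal (2 * gsq T x)) (volume.restrict A) :=
    (((hcont.aemeasurable hAm).const_mul 2)).ennreal_ofReal
  -- the kernel
  set k : (P.N q)ᗮ → ℝ → E d → ℝ≥0∞ := fun s τ x =>
    ENNReal.ofReal (τ ^ (1 - (d : ℤ)) * Th (τ⁻¹ • (x - (q + (s : E d))))) with hk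
  have hkm : Measurable fun z : ((P.N q)ᗮ × ℝ) × E d => k z.1.1 z.1.2 z.2 := by
    apply ENNReal.measurable_ofReal.comp
    apply Measurable.mul
    · have : Measurable fun τ : ℝ => τ ^ (1 - (d : ℤ)) := by fun_prop
      exact this.comp (by fun_prop)
    · apply wt_Th_cont.measurable.comp
      exact Measurable.smul (f := fun z : ((P.N q)ᗮ × ℝ) × E d => z.1.2⁻¹)
        (g := fun z : ((P.N q)ᗮ × ℝ) × E d => z.2 - (q + (z.1.1 : E d)))
        (by fun_prop) (by fun_prop)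
  -- Tonelli
  have hton : ∫⁻ x in A, ENNReal.ofReal (2 * gsq T x) *
      (∫⁻ s in ball (0 : (P.N q)ᗮ) (R / 4), ∫⁻ τ in Ioc 0 (R / 2), k s τ x) =
      ∫⁻ s in ball (0 : (P.N q)ᗮ) (R / 4), ∫⁻ τ in Ioc 0 (R / 2), ∫⁻ x in A,
        ENNReal.ofReal (2 * gsq T x) * k s τ x := by
    have h1 : ∀ x, ENNReal.ofReal (2 * gsq T x) *
        (∫⁻ s in ball (0 : (P.N q)ᗮ) (R / 4), ∫⁻ τ in Ioc 0 (R / 2), k s τ x) =
        ∫⁻ z, ENNReal.ofReal (2 * gsq T x) * k z.1 z.2 x
          ∂((volume.restrict (ball (0 : (P.N q)ᗮ) (R / 4))).prod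
            (volume.restrict (Ioc 0 (R / 2)))) := by
      intro x
      have hm1 : Measurable fun z : (P.N q)ᗮ × ℝ => k z.1 z.2 x :=
        hkm.comp (by fun_prop : Measurable fun z : (P.N q)ᗮ × ℝ => (z, x))
      rw [lintegral_const_mul _ hm1, lintegral_prod _ hm1.aemeasurable]
    simp_rw [h1]
    rw [lintegral_lintegral_swap]
    · rw [lintegral_prod]
      apply AEMeasurable.lintegral_prod_right'
        (f := fun w : ((P.N q)ᗮ × ℝ) × E d => ENNReal.ofReal (2 * gsq T w.2) * k w.1.1 w.1.2 w.2)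
      exact AEMeasurable.mul
        (f := fun w : ((P.N q)ᗮ × ℝ) × E d => ENNReal.ofReal (2 * gsq T w.2)) hgm.comp_snd
        hkm.aemeasurable
    · exact AEMeasurable.mul
        (f := fun w : E d × ((P.N q)ᗮ × ℝ) => ENNReal.ofReal (2 * gsq T w.1)) hgm.comp_fst
        (hkm.comp measurable_swap).aemeasurable
  have hfin : ∫⁻ x in A, ENNReal.ofReal (2 * gsq T x) *
      (∫⁻ s in ball (0 : (P.N q)ᗮ) (R / 4), ∫⁻ τ in Ioc 0 (R / 2), k s τ x) < ⊤ := by
    rw [hton]
    calc ∫⁻ s in ball (0 : (P.N q)ᗮ) (R / 4), ∫⁻ τ in Ioc 0 (R / 2), ∫⁻ x in A,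
        ENNReal.ofReal (2 * gsq T x) * k s τ x
        ≤ ∫⁻ s in ball (0 : (P.N q)ᗮ) (R / 4), ENNReal.ofReal C1 := by
          apply setLIntegral_mono' measurableSet_ball
          intro s hs
          rw [mem_ball_zero_iff] at hs
          exact hC1 (s : E d) s.2 (hs.le)
      _ < ⊤ := by
          rw [setLIntegral_const]
          exact ENNReal.mul_lt_top ENNReal.ofReal_lt_top measure_ball_lt_top
  have hfin2 : c * ∫⁻ x in A, ENNReal.ofReal (2 * gsq T x) * ENNReal.ofReal ((P.rho q x)⁻¹) < ⊤ := by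
    rw [← lintegral_const_mul']
    · refine lt_of_le_of_lt ?_ hfin
      apply setLIntegral_mono' hAm
      intro x hx
      calc c * (ENNReal.ofReal (2 * gsq T x) * ENNReal.ofReal ((P.rho q x)⁻¹))
          = ENNReal.ofReal (2 * gsq T x) * (c * ENNReal.ofReal ((P.rho q x)⁻¹)) := by ring
        _ ≤ _ := by
            gcongr
            exact hc x hx.2
    · exact hc1
  have hfin3 : ∫⁻ x in A, ENNReal.ofReal (2 * gsq T x) * ENNReal.ofReal ((P.rho q x)⁻¹) < ⊤ := by
    by_contra hcon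
    rw [not_lt, top_le_iff] at hcon
    rw [hcon, ENNReal.mul_top hc0] at hfin2
    exact absurd hfin2 (lt_irrefl _)
  constructor
  · apply AEStronglyMeasurable.mul
    · exact ((wt_rho_cont P q).measurable.inv).aestronglyMeasurable
    · exact hcont.aestronglyMeasurable hAm
  · rw [hasFiniteIntegral_iff_enorm]
    refine lt_of_le_of_lt ?_ hfin3
    apply setLIntegral_mono' hAm
    intro x _
    have h1 : 0 ≤ P.rho q x := norm_nonneg _
    have h2 := gsq_nonneg T x
    rw [Real.enorm_eq_ofReal (by positivity), ← ENNReal.ofReal_mul (by positivity)]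
    apply ENNReal.ofReal_le_ofReal
    have h3 : 0 ≤ (P.rho q x)⁻¹ * gsq T x := by positivity
    nlinarith

end

end Pool.Agent.Lib_helper34.Robin
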