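import Pool.Agent.Lib_helper13.Robin.W.IE
import Pool.Agent.Lib_helper13.Robin.W.NL
import Pool.Agent.Lib_helper13.Robin.W.PL
import Pool.Agent.Lib_helper13.Robin.W.RE

/-!
# Robin project, block XS: scale-invariant derivative estimates near an edge
-/

namespace Pool.Agent.Lib_helper34.Robin

open MeasureTheory Set Metric Filter Topology
open scoped RealInnerProductSpace ContDiff
open Pool.Agent.Lib_helper13.Robin

noncomputable section

variable {d m : ℕ} (P : PD d m)

theorem xs_congr {f g : E d → ℝ} {x : E d} (h : f =ᶠ[𝓝 x] g) :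
    gradient f x = gradient g x ∧
      ∀ j k, pd (bv k) (pd (bv j) f) x = pd (bv k) (pd (bv j) g) x := by
  refine ⟨?_, fun j k => ?_⟩
  · unfold gradient; rw [h.fderiv_eq (𝕜 := ℝ)]
  · have : pd (bv j) f =ᶠ[𝓝 x] pd (bv j) g := by
      filter_upwards [h.fderiv (𝕜 := ℝ)] with y hy
      unfold pd; rw [hy]
    change fderiv ℝ (pd (bv j) f) x (bv k) = fderiv ℝ (pd (bv j) g) x (bv k)
    rw [this.fderiv_eq]

/-- the interior estimate as a predicate on the constant -/
def IntEst (d : ℕ) (C : ℝ) : Prop :=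
  ∀ (f : E d → ℝ) (x : E d) (r M : ℝ), 0 < r →
    ContDiffOn ℝ ∞ f (ball x r) → (∀ y ∈ ball x r, lap f y = 0) →
    (∀ y ∈ ball x r, |f y| ≤ M) →
    ‖gradient f x‖ ≤ C * M / r ∧ ∀ j k, |pd (bv k) (pd (bv j) f) x| ≤ C * M / r ^ 2

variable {P}

theorem xs_abs (i : Fin m) (z : E d) : |⟪P.ν i, z⟫| ≤ ‖z‖ := by
  calc |⟪P.ν i, z⟫| ≤ ‖P.ν i‖ * ‖z‖ := abs_real_inner_le_norm _ _
    _ = ‖z‖ := by rw [P.unit, one_mul]

/-- far from all facets -/
theorem xs_far {p x s : E d} {R t M C0 : ℝ} (hC : P.Con p R) (h0 : IntEst d C0) {W : E d → ℝ}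
    (hW : NH P (ball p R) W) (hxp : ‖x - p‖ < R / 4) (ht : 0 < t)
    (htR : t ≤ R / 16) (hfar : ∀ i ∈ P.A p, t ≤ P.b i - ⟪P.ν i, x⟫)
    {ρ : ℝ} (hρ : ‖x - p - s‖ = ρ) (htρ : t ≤ ρ)
    (hM : ∀ y ∈ P.Om ∩ ball (p + s) (2 * ρ), |W y| ≤ M) :
    ‖gradient W x‖ ≤ C0 * M / t ∧ ∀ j k, |pd (bv k) (pd (bv j) W) x| ≤ C0 * M / t ^ 2 := by
  have hRp := hC.pos
  have hsub : ∀ y ∈ ball x t, y ∈ P.Om ∩ ball p R ∧ y ∈ ball (p + s) (2 * ρ) := by
    intro y hy
    rw [mem_ball, dist_eq_norm] at hy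
    have h1 : y ∈ ball p R := by
      rw [mem_ball, dist_eq_norm]
      calc ‖y - p‖ = ‖(y - x) + (x - p)‖ := by congr 1; abel
        _ ≤ ‖y - x‖ + ‖x - p‖ := norm_add_le _ _
        _ < R := by linarith
    refine ⟨⟨(hC.mem_Om_iff h1).2 fun i hi => ?_, h1⟩, ?_⟩
    · have h2 := hfar i hi
      have h3 := (le_abs_self _).trans (xs_abs (P := P) i (y - x))
      have h4 : ⟪P.ν i, p⟫ = P.b i := hi
      rw [inner_sub_right] at h3 ⊢
      linarith
    · rw [mem_ball, dist_eq_norm]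
      calc ‖y - (p + s)‖ = ‖(y - x) + (x - p - s)‖ := by congr 1; abel
        _ ≤ ‖y - x‖ + ‖x - p - s‖ := norm_add_le _ _
        _ < 2 * ρ := by linarith
  exact h0 W x t M ht (hW.sm.mono fun y hy => (hsub y hy).1)
    (fun y hy => hW.harm y (hsub y hy).1) fun y hy => hM y ⟨(hsub y hy).1.1, (hsub y hy).2⟩

/-- near the facet `i` but far from all other facets -/
theorem xs_near {p x s : E d} {R t M C0 : ℝ} (hC : P.Con p R) (h0 : IntEst d C0) {W : E d → ℝ}
    (hW : NH P (ball p R) W) (hx : x ∈ P.Om) (hxp : ‖x - p‖ < R / 4) (ht : 0 < t)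
    (htR : t ≤ R / 16) {i : Fin m} (hi : i ∈ P.A p) (hin : P.b i - ⟪P.ν i, x⟫ < t)
    (hfar : ∀ j ∈ P.A p, j ≠ i → 4 * t ≤ P.b j - ⟪P.ν j, x⟫)
    {ρ : ℝ} (hρ : ‖x - p - s‖ = ρ) (htρ : 4 * t ≤ ρ)
    (hM : ∀ y ∈ P.Om ∩ ball (p + s) (2 * ρ), |W y| ≤ M) :
    ‖gradient W x‖ ≤ C0 * M / t ∧ ∀ j k, |pd (bv k) (pd (bv j) W) x| ≤ C0 * M / t ^ 2 := by
  have hRp := hC.pos
  set e := P.b i - ⟪P.ν i, x⟫ with he
  have he0 : 0 < e := by have := hx i; rw [he]; linarith
  set x' := x + e • P.ν i with hx'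
  have hxx' : ‖x' - x‖ = e := by
    rw [hx', add_sub_cancel_left, norm_smul, P.unit, mul_one, Real.norm_eq_abs, abs_of_pos he0]
  have hix' : ⟪P.ν i, x'⟫ = P.b i := by
    rw [hx', inner_add_right, inner_smul_right, P.inner_ν_self, mul_one, he]; ring
  have hx'p : ‖x' - p‖ < 5 * R / 16 := by
    calc ‖x' - p‖ = ‖(x' - x) + (x - p)‖ := by congr 1; abel
      _ ≤ ‖x' - x‖ + ‖x - p‖ := norm_add_le _ _
      _ < 5 * R / 16 := by rw [hxx']; linarith
  have hj' : ∀ j, j ≠ i → ⟪P.ν j, x'⟫ + 2 * t ≤ P.b j := by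
    intro j hj
    by_cases hjA : j ∈ P.A p
    · have h1 := hfar j hjA hj
      have h2 := (le_abs_self _).trans (xs_abs (P := P) j (x' - x))
      rw [inner_sub_right, hxx'] at h2
      linarith
    · have h1 := (hC.2.2 j).resolve_left hjA
      have h2 := (le_abs_self _).trans (xs_abs (P := P) j (x' - p))
      rw [inner_sub_right] at h2
      linarith
  have hx'cl : x' ∈ P.cl := by
    intro j
    by_cases hj : j = i
    · rw [hj, hix']
    · linarith [hj' j hj]
  have hA' : P.A x' = {i} := by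
    ext j
    simp only [mem_singleton_iff]
    constructor
    · intro hj
      by_contra hne
      have h1 : ⟪P.ν j, x'⟫ = P.b j := hj
      linarith [hj' j hne]
    · rintro rfl; exact hix'
  have hC' : P.Con x' (2 * t) := by
    refine ⟨by linarith, hx'cl, fun j => ?_⟩
    by_cases hj : j = i
    · left; rw [hj]; exact hix'
    · right; exact hj' j hj
  have hballR : ball x' (2 * t) ⊆ ball p R := by
    intro y hy
    rw [mem_ball, dist_eq_norm] at hy ⊢
    calc ‖y - p‖ = ‖(y - x') + (x' - p)‖ := by congr 1; abel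
      _ ≤ ‖y - x'‖ + ‖x' - p‖ := norm_add_le _ _
      _ < R := by linarith
  have hballρ : ball x' (2 * t) ⊆ ball (p + s) (2 * ρ) := by
    intro y hy
    rw [mem_ball, dist_eq_norm] at hy ⊢
    calc ‖y - (p + s)‖ = ‖(y - x') + (x' - x) + (x - p - s)‖ := by congr 1; abel
      _ ≤ ‖y - x'‖ + ‖x' - x‖ + ‖x - p - s‖ := norm_add₃_le
      _ < 2 * ρ := by rw [hxx']; linarith
  obtain ⟨w', hw1, hw2, hw3, hw4⟩ := refl_ext P hC' hA' (NH.mono hW hballR)
  -- the bound of `w'`
  have hb1 : ∀ y ∈ P.Om ∩ ball x' (2 * t), |w' y| ≤ M := by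
    intro y hy
    rw [hw3 y hy]
    exact hM y ⟨hy.1, hballρ hy.2⟩
  have hmem : ∀ y ∈ ball x' (2 * t), ⟪P.ν i, y⟫ < P.b i → y ∈ P.Om := by
    intro y hy h
    rw [hC'.mem_Om_iff hy, hA']
    intro j hj
    rw [mem_singleton_iff] at hj
    rw [hj, inner_sub_right, hix']; linarith
  have hb2 : ∀ y ∈ ball x' (2 * t), |w' y| ≤ M := by
    intro y hy
    rcases lt_trichotomy ⟪P.ν i, y⟫ (P.b i) with h | h | h
    · exact hb1 y ⟨hmem y hy h, hy⟩
    · -- on the hyperplane: limit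
      have hc : ContinuousAt w' y :=
        (hw1.continuousOn).continuousAt (isOpen_ball.mem_nhds hy)
      have hl : Tendsto (fun τ : ℝ => y - τ • P.ν i) (𝓝[>] 0) (𝓝 y) := by
        have : Tendsto (fun τ : ℝ => y - τ • P.ν i) (𝓝 0) (𝓝 (y - (0 : ℝ) • P.ν i)) := by
          apply Continuous.tendsto
          fun_prop
        rw [zero_smul, sub_zero] at this
        exact this.mono_left nhdsWithin_le_nhds
      have hl2 := (hc.tendsto.comp hl).abs
      apply le_of_tendsto hl2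
      filter_upwards [hl (isOpen_ball.mem_nhds hy), self_mem_nhdsWithin] with τ h1 h2
      apply hb1 _ ⟨hmem _ h1 _, h1⟩
      rw [inner_sub_right, inner_smul_right, P.inner_ν_self, h]
      have : 0 < τ := h2
      linarith
    · rw [← hw4 y hy]
      have hr : P.refl i y ∈ ball x' (2 * t) := by
        rw [mem_ball, dist_eq_norm] at hy ⊢
        have h1 : ‖P.refl i y - x'‖ ^ 2 = ‖y - x'‖ ^ 2 := by
          have h2 : P.refl i y - x' = (y - x') + (2 * (P.b i - ⟪P.ν i, y⟫)) • P.ν i := by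
            unfold PD.refl; abel
          rw [h2, norm_add_sq_real, norm_smul, P.unit, mul_one, inner_smul_right, inner_sub_left,
            real_inner_comm, real_inner_comm (P.ν i) x', hix', Real.norm_eq_abs, sq_abs]
          ring
        have h3 := abs_eq_abs.2 (Or.inl (rfl : ‖y - x'‖ = ‖y - x'‖))
        have h4 : ‖P.refl i y - x'‖ = ‖y - x'‖ := by
          have := (sq_eq_sq₀ (norm_nonneg _) (norm_nonneg _)).1 h1
          exact this
        rw [h4]; exact hy
      apply hb1 _ ⟨hmem _ hr _, hr⟩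
      unfold PD.refl
      rw [inner_add_right, inner_smul_right, P.inner_ν_self]
      linarith
  -- apply the interior estimate at `x`
  have hbx : ball x t ⊆ ball x' (2 * t) := by
    intro y hy
    rw [mem_ball, dist_eq_norm] at hy ⊢
    calc ‖y - x'‖ = ‖(y - x) - (x' - x)‖ := by congr 1; abel
      _ ≤ ‖y - x‖ + ‖x' - x‖ := norm_sub_le _ _
      _ < 2 * t := by rw [hxx']; linarith
  have hmain := h0 w' x t M ht (hw1.mono hbx) (fun y hy => hw2 y (hbx hy))
    fun y hy => hb2 y (hbx hy)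
  have hev : W =ᶠ[𝓝 x] w' := by
    have hxm : x ∈ P.Om ∩ ball x' (2 * t) := ⟨hx, hbx (mem_ball_self ht)⟩
    filter_upwards [(P.isOpen_Om.inter isOpen_ball).mem_nhds hxm] with y hy
    exact (hw3 y hy).symm
  obtain ⟨h1, h2⟩ := xs_congr hev
  rw [h1]
  refine ⟨hmain.1, fun j k => ?_⟩
  rw [h2]; exact hmain.2 j k

variable (P)

/-- **XS.** scale-invariant derivative estimates near an edge -/
theorem nh_scale {p : E d} {R : ℝ} (hC : P.Con p R) (hr : P.rk p = 2) :
    ∃ C > 0, ∀ W : E d → ℝ, NH P (ball p R) W → ∀ x ∈ P.Om ∩ ball p (R / 4), ∀ (s : E d) (M : ℝ),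
      s ∈ (P.N p)ᗮ → x - p - s ∈ P.N p →
      (∀ y ∈ P.Om ∩ ball (p + s) (2 * P.rho p x), |W y| ≤ M) →
      ‖gradient W x‖ ≤ C * M / P.rho p x ∧
      ∀ j k, |pd (bv k) (pd (bv j) W) x| ≤ C * M / P.rho p x ^ 2 := by
  obtain ⟨i, j, e1, e2, om, hF⟩ := P.rk_eq_two hC.mem hr
  obtain ⟨C0, hC0p, h0⟩ := interior_est d (by have := P.dim; omega)
  have hs0 : 0 < Real.sin om := Real.sin_pos_of_pos_of_lt_pi hF.om0 hF.omπ
  have hs1 : Real.sin om ≤ 1 := Real.sin_le_one _
  obtain ⟨κ, hκ⟩ : ∃ κ, κ = Real.sin om / 16 := ⟨_, rfl⟩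
  have hκ0 : 0 < κ := by rw [hκ]; positivity
  have hκ1 : κ ≤ 1 / 16 := by rw [hκ]; linarith
  refine ⟨C0 / κ ^ 2, by positivity, ?_⟩
  intro W hW x hx s M hs hxs hM
  have hRp := hC.pos
  -- `rho = ‖x - p - s‖`
  have hρ : P.rho p x = ‖x - p - s‖ := by
    unfold PD.rho
    congr 1
    have h1 : (P.N p).starProjection s = 0 := by
      rw [Submodule.starProjection_apply_eq_zero_iff]; exact hs
    have h2 : (P.N p).starProjection (x - p - s) = x - p - s :=
      Submodule.starProjection_eq_self_iff.2 hxs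
    rw [map_sub, h1, sub_zero] at h2
    exact h2
  set ρ := P.rho p x with hρdef
  have hxp : ‖x - p‖ < R / 4 := by
    have := hx.2; rwa [mem_ball, dist_eq_norm] at this
  have hρle : ρ < R / 4 := by
    refine lt_of_le_of_lt ?_ hxp
    rw [hρdef]; unfold PD.rho
    exact Submodule.norm_starProjection_apply_le _ _
  -- coordinates
  have hN := hF.N_eq
  rw [hN, Submodule.mem_span_pair] at hxs
  obtain ⟨a, b, hab⟩ := hxs
  have horth' : ⟪e2, e1⟫ = (0 : ℝ) := by rw [real_inner_comm]; exact hF.orth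
  have h11 : ⟪e1, e1⟫ = (1 : ℝ) := by rw [real_inner_self_eq_norm_sq, hF.n1]; norm_num
  have h22 : ⟪e2, e2⟫ = (1 : ℝ) := by rw [real_inner_self_eq_norm_sq, hF.n2]; norm_num
  have hiA : i ∈ P.A p := by rw [hF.hA]; simp
  have hjA : j ∈ P.A p := by rw [hF.hA]; simp
  have hin : ∀ l ∈ P.A p, P.b l - ⟪P.ν l, x⟫ = - ⟪P.ν l, x - p - s⟫ := by
    intro l hl
    have h1 : ⟪P.ν l, p⟫ = P.b l := hl
    rw [inner_sub_right, inner_sub_right, h1, P.mem_N_orth.1 hs l hl]; ring
  have hdi : P.b i - ⟪P.ν i, x⟫ = b := by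
    rw [hin i hiA, ← hab, hF.νi, inner_neg_left, inner_add_right, inner_smul_right,
      inner_smul_right, horth', h22]; ring
  have hdj : P.b j - ⟪P.ν j, x⟫ = Real.sin om * a - Real.cos om * b := by
    rw [hin j hjA, ← hab, hF.νj, inner_add_left, inner_smul_left, inner_smul_left,
      inner_add_right, inner_smul_right, inner_smul_right, inner_add_right, inner_smul_right,
      inner_smul_right, horth', h22, h11, hF.orth]
    simp only [conj_trivial]
    ring
  have hρ2 : ρ ^ 2 = a ^ 2 + b ^ 2 := by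
    rw [hρ, ← hab, norm_add_sq_real, norm_smul, norm_smul, hF.n1, hF.n2, inner_smul_left,
      inner_smul_right, hF.orth]
    simp
  have hρ0' : 0 ≤ ρ := by rw [hρ]; exact norm_nonneg _
  have hib : 0 < b := by rw [← hdi]; have := hx.1 i; linarith
  have hρ0 : 0 < ρ := by
    rcases hρ0'.lt_or_eq with h | h
    · exact h
    · rw [← h] at hρ2; nlinarith
  set D := Real.sin om * a - Real.cos om * b with hD
  have hD0 : 0 < D := by rw [← hdj]; have := hx.1 j; linarith
  have habs : Real.sin om * |a| ≤ D + b := by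
    have h1 : Real.sin om * a = D + Real.cos om * b := by rw [hD]; ring
    have h2 : |Real.sin om * a| = Real.sin om * |a| := by rw [abs_mul, abs_of_pos hs0]
    rw [← h2, h1, abs_le]
    have h3 := Real.cos_le_one om
    have h4 := Real.neg_one_le_cos om
    constructor <;> nlinarith
  have hρab : ρ ≤ |a| + b := by
    apply abs_le_of_sq_le_sq' _ (by positivity) |>.2
    rw [hρ2]; nlinarith [abs_nonneg a, sq_abs a]
  have hkey : 8 * κ * ρ ≤ D + b := by
    have h5 : Real.sin om * ρ ≤ 2 * (D + b) := by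
      calc Real.sin om * ρ ≤ Real.sin om * (|a| + b) := by gcongr
        _ ≤ (D + b) + 1 * b := by rw [mul_add]; gcongr
        _ ≤ 2 * (D + b) := by linarith
    rw [hκ]; linarith
  have hmul : κ * ρ ≤ R / 16 := by nlinarith
  have hmax : 4 * (κ * ρ) ≤ D ∨ 4 * (κ * ρ) ≤ b := by
    by_contra hcon
    push Not at hcon
    linarith [hcon.1, hcon.2]
  have htρ : 4 * (κ * ρ) ≤ ρ := by nlinarith
  have hκρ : 0 < κ * ρ := by positivity
  have hM0 : 0 ≤ M := by
    refine (abs_nonneg _).trans (hM x ⟨hx.1, ?_⟩)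
    rw [mem_ball, dist_eq_norm, show x - (p + s) = x - p - s by abel, ← hρ]
    linarith
  -- the estimates with `t = κ ρ`
  have hest : ‖gradient W x‖ ≤ C0 * M / (κ * ρ) ∧
      ∀ j k, |pd (bv k) (pd (bv j) W) x| ≤ C0 * M / (κ * ρ) ^ 2 := by
    by_cases hcase : κ * ρ ≤ b ∧ κ * ρ ≤ D
    · apply xs_far hC h0 hW hxp hκρ hmul _ hρ.symm (by linarith) hM
      intro l hl
      rw [hF.hA] at hl
      rcases hl with rfl | hl
      · rw [hdi]; exact hcase.1
      · rw [mem_singleton_iff.1 hl, hdj]; exact hcase.2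
    · rw [not_and_or] at hcase
      push Not at hcase
      rcases hcase with h | h
      · apply xs_near hC h0 hW hx.1 hxp hκρ hmul hiA (by rw [hdi]; exact h) _ hρ.symm htρ hM
        intro l hl hne
        rw [hF.hA] at hl
        rcases hl with rfl | hl
        · exact absurd rfl hne
        · rw [mem_singleton_iff.1 hl, hdj]
          rcases hmax with h' | h'
          · exact h'
          · linarith
      · apply xs_near hC h0 hW hx.1 hxp hκρ hmul hjA (by rw [hdj]; exact h) _ hρ.symm htρ hM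
        intro l hl hne
        rw [hF.hA] at hl
        rcases hl with rfl | hl
        · rw [hdi]
          rcases hmax with h' | h'
          · linarith
          · exact h'
        · exact absurd (mem_singleton_iff.1 hl) hne
  refine ⟨hest.1.trans ?_, fun j k => (hest.2 j k).trans ?_⟩
  · rw [div_mul_eq_mul_div, div_div, div_le_div_iff₀ (by positivity) (by positivity)]
    have h1 : κ ^ 2 ≤ κ := by nlinarith
    have h2 : 0 ≤ C0 * M * ρ := by positivity
    nlinarith
  · rw [div_mul_eq_mul_div, div_div, mul_pow]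

end

end Pool.Agent.Lib_helper34.Robin
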